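import Mathlib
import Pool.Agent.N233.GM.Law
import Pool.Agent.R494.SPL4
import Pool.Agent.Y440.LC.Main2

/-! `x² + y² + z² + 4w²` with `2 ^ x + 2 ^ y + 2 ^ z + 1` chosen, growing sieve by the primes of a set `P`
(helper860; follows Pool.Agent.N233.GM.Law, Law2 of helper233 and Pool.Agent.R494.SPL4). -/

set_option autoImplicit false
set_option linter.unusedSectionVars false

namespace Pool.Agent.N860.GS

open Filter Asymptotics MeasureTheory Pool.Agent.R494.SPL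
open Pool.Agent.R528.RM
open scoped Topology

/-- `m` has no prime factor in `P` at most `z m` -/
def Rough (P : Set ℕ) (z : ℕ → ℕ) (m : ℕ) : Prop := ∀ q, q.Prime → q ∈ P → q ≤ z m → ¬ q ∣ m

open Classical in
/-- `∏_{q ≤ x, q ∈ P} (1 - 1 / q)⁻¹` -/
noncomputable def W (P : Set ℕ) (x : ℕ) : ℝ :=
  ∏ q ∈ (Finset.Icc 1 x).filter (fun q => q.Prime ∧ q ∈ P), (1 - (q : ℝ)⁻¹)⁻¹

open Classical in
/-- the density at `m`, at most one -/
noncomputable def rho (P : Set ℕ) (z : ℕ → ℕ) (m : ℕ) : ℝ :=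
  if Rough P z m then min 1 (W P (z m) / Real.log m) else 0

lemma W_ge (P : Set ℕ) (x : ℕ) : 1 ≤ W P x := by
  classical
  unfold W
  have : ∀ q ∈ (Finset.Icc 1 x).filter (fun q => q.Prime ∧ q ∈ P), 1 ≤ (1 - (q : ℝ)⁻¹)⁻¹ :=
    fun q hq => Pool.Agent.N233.GM.fac_ge q (Finset.mem_filter.1 hq).2.1
  calc (1 : ℝ) = ∏ q ∈ (Finset.Icc 1 x).filter (fun q => q.Prime ∧ q ∈ P), (1 : ℝ) := by simp
    _ ≤ _ := Finset.prod_le_prod (fun _ _ => zero_le_one) this

lemma W_le (P : Set ℕ) (x : ℕ) : W P x ≤ Pool.Agent.N233.GM.W x := by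
  classical
  unfold W Pool.Agent.N233.GM.W
  have hsub : (Finset.Icc 1 x).filter (fun q => q.Prime ∧ q ∈ P) ⊆ (Finset.Icc 1 x).filter Nat.Prime := by
    intro q hq
    rw [Finset.mem_filter] at hq ⊢
    exact ⟨hq.1, hq.2.1⟩
  rw [← Finset.prod_sdiff hsub]
  have h1 : (1 : ℝ) ≤ ∏ q ∈ (Finset.Icc 1 x).filter Nat.Prime \ (Finset.Icc 1 x).filter (fun q => q.Prime ∧ q ∈ P),
      (1 - (q : ℝ)⁻¹)⁻¹ := by
    calc (1 : ℝ) = ∏ q ∈ (Finset.Icc 1 x).filter Nat.Prime \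
          (Finset.Icc 1 x).filter (fun q => q.Prime ∧ q ∈ P), (1 : ℝ) := by simp
      _ ≤ _ := Finset.prod_le_prod (fun _ _ => zero_le_one)
        fun q hq => Pool.Agent.N233.GM.fac_ge q (Finset.mem_filter.1 (Finset.mem_sdiff.1 hq).1).2
  have h2 : (0 : ℝ) ≤ ∏ q ∈ (Finset.Icc 1 x).filter (fun q => q.Prime ∧ q ∈ P), (1 - (q : ℝ)⁻¹)⁻¹ :=
    Finset.prod_nonneg fun q hq => le_trans zero_le_one (Pool.Agent.N233.GM.fac_ge q (Finset.mem_filter.1 hq).2.1)
  nlinarith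

lemma rho_bounds (P : Set ℕ) (z : ℕ → ℕ) (n : ℕ) : 0 ≤ rho P z n ∧ rho P z n ≤ 1 := by
  unfold rho
  have h1 : 0 ≤ W P (z n) := zero_le_one.trans (W_ge _ _)
  have h2 := Real.log_natCast_nonneg n
  split_ifs
  · exact ⟨by positivity, min_le_left _ _⟩
  · exact ⟨le_rfl, zero_le_one⟩

/-- `L log L / log log L` -/
noncomputable def G (L : ℝ) : ℝ := L * Real.log L / Real.log (Real.log L)

lemma G_mono {a b : ℝ} (ha : Real.exp (Real.exp 1) ≤ a) (hab : a ≤ b) : G a ≤ G b := by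
  have he : 0 < Real.exp (Real.exp 1) := Real.exp_pos _
  have ha0 : 0 < a := by linarith
  have hla : Real.exp 1 ≤ Real.log a := by rwa [Real.le_log_iff_exp_le ha0]
  have hlab : Real.log a ≤ Real.log b := Real.log_le_log ha0 hab
  have he1 : (0 : ℝ) < Real.exp 1 := Real.exp_pos _
  have hlla : 1 ≤ Real.log (Real.log a) := by
    rw [Real.le_log_iff_exp_le (by linarith)]; exact hla
  have hllb : 1 ≤ Real.log (Real.log b) := by
    rw [Real.le_log_iff_exp_le (by linarith)]; linarith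
  have h1 := Real.log_div_self_antitoneOn (show Real.log a ∈ {x | Real.exp 1 ≤ x} from hla)
    (show Real.log b ∈ {x | Real.exp 1 ≤ x} from hla.trans hlab) hlab
  simp only at h1
  have h2 : Real.log a / Real.log (Real.log a) ≤ Real.log b / Real.log (Real.log b) := by
    rw [div_le_div_iff₀ (by linarith) (by linarith)] at h1 ⊢
    linarith
  unfold G
  rw [mul_div_assoc, mul_div_assoc]
  have h3 : 0 ≤ Real.log a / Real.log (Real.log a) := div_nonneg (by linarith) (by linarith)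
  exact mul_le_mul hab h2 h3 (by linarith)

lemma G_le_sq : ∀ᶠ L : ℝ in atTop, 0 ≤ G L ∧ G L ≤ L ^ 2 := by
  filter_upwards [eventually_ge_atTop (Real.exp (Real.exp 1))] with a ha
  have he : 0 < Real.exp (Real.exp 1) := Real.exp_pos _
  have ha0 : 0 < a := by linarith
  have hla : Real.exp 1 ≤ Real.log a := by rwa [Real.le_log_iff_exp_le ha0]
  have he1 : (0 : ℝ) < Real.exp 1 := Real.exp_pos _
  have hlla : 1 ≤ Real.log (Real.log a) := by
    rw [Real.le_log_iff_exp_le (by linarith)]; exact hla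
  have h1 : Real.log a ≤ a := by
    have := Real.log_le_sub_one_of_pos ha0
    linarith
  unfold G
  constructor
  · exact div_nonneg (mul_nonneg ha0.le (by linarith)) (by linarith)
  · rw [div_le_iff₀ (by linarith)]
    nlinarith [mul_nonneg ha0.le (by linarith : (0 : ℝ) ≤ a - Real.log a), mul_nonneg (mul_nonneg ha0.le ha0.le)
      (by linarith : (0 : ℝ) ≤ Real.log (Real.log a) - 1)]

lemma logN : Tendsto (fun n : ℕ => Real.log (n : ℝ)) atTop atTop :=
  Real.tendsto_log_atTop.comp tendsto_natCast_atTop_atTop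

lemma loglogN : Tendsto (fun n : ℕ => Real.log (Real.log (n : ℝ))) atTop atTop :=
  Real.tendsto_log_atTop.comp logN

/-- the sieve is short -/
lemma short (c : ℝ) (hc : 0 ≤ c) (P : Set ℕ) (z : ℕ → ℕ)
    (hz : ∀ᶠ n : ℕ in atTop, (z n : ℝ) ≤ c * G (Real.log (Real.log n))) :
    ∀ᶠ n : ℕ in atTop, W P (z n) / Real.log n < 1 := by
  obtain ⟨δ, hδ, h⟩ := Pool.Agent.N233.GM.W_small
  have h0 : ∀ᶠ n : ℕ in atTop, Pool.Agent.N233.GM.W (z n) / Real.log n < 1 := by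
    apply h z
    have h1 := (isLittleO_log_rpow_rpow_atTop (2 : ℝ) hδ).bound (show (0 : ℝ) < 1 / (c + 1) by positivity)
    have h3 : ∀ᶠ n : ℕ in atTop, Real.log (Real.log (n : ℝ)) ≤ Real.log n := by
      filter_upwards [logN.eventually_ge_atTop 1] with n hn
      have := Real.log_le_sub_one_of_pos (show (0 : ℝ) < Real.log n by linarith)
      linarith
    filter_upwards [hz, tendsto_natCast_atTop_atTop.eventually h1, h3, logN.eventually_ge_atTop 1,
      eventually_ge_atTop 1, loglogN.eventually G_le_sq] with n g1 g2 g3 g4 g5 g6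
    have hn0 : (0 : ℝ) < n := by exact_mod_cast g5
    rw [Real.norm_eq_abs, Real.norm_eq_abs, abs_of_nonneg (Real.rpow_nonneg (by linarith) _),
      abs_of_nonneg (Real.rpow_nonneg hn0.le _)] at g2
    have e5 : Real.log n ^ (2 : ℝ) = Real.log n ^ (2 : ℕ) := by
      rw [← Real.rpow_natCast]; norm_num
    rw [e5] at g2
    have h4 : 0 ≤ Real.log (Real.log (n : ℝ)) := Real.log_nonneg g4
    calc (z n : ℝ) ≤ c * G (Real.log (Real.log n)) := g1
      _ ≤ c * Real.log (Real.log n) ^ 2 := mul_le_mul_of_nonneg_left g6.2 hc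
      _ ≤ (c + 1) * Real.log n ^ 2 := by
          apply mul_le_mul _ _ (by positivity) (by positivity)
          · linarith
          · exact pow_le_pow_left₀ h4 g3 2
      _ ≤ (c + 1) * (1 / (c + 1) * (n : ℝ) ^ δ) := by gcongr
      _ = (n : ℝ) ^ δ := by field_simp
  filter_upwards [h0, logN.eventually_gt_atTop 0] with n g1 g2
  refine lt_of_le_of_lt ?_ g1
  exact div_le_div_of_nonneg_right (W_le _ _) g2.le

section

variable {Ω : Type} {m0 : MeasurableSpace Ω} {μ : Measure Ω} [IsProbabilityMeasure μ]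
  {ℱ : Filtration ℕ m0} {A : ℕ → Set Ω}

/-- the densities follow the profile -/
lemma profile (P : Set ℕ) (z : ℕ → ℕ) (hV : ∀ᶠ n : ℕ in atTop, W P (z n) / Real.log n < 1)
    (hcop : ∀ n, ¬ Rough P z n → A n = ∅)
    (hd : ∀ᵐ ω ∂μ, Tendsto (fun n : ℕ => dens μ ℱ A n ω * Real.log n / W P (z (n + 1)))
      (atTop ⊓ 𝓟 {n : ℕ | Rough P z (n + 1)}) (𝓝 1)) :
    ∀ᵐ ω ∂μ, ∀ ε : ℝ, 0 < ε → ∀ᶠ n : ℕ in atTop,
      |dens μ ℱ A n ω - rho P z (n + 1)| ≤ ε * rho P z (n + 1) := by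
  have hz' : ∀ᵐ ω ∂μ, ∀ n, ¬ Rough P z (n + 1) → dens μ ℱ A n ω = 0 := by
    rw [ae_all_iff]
    intro n
    by_cases h : Rough P z (n + 1)
    · exact Eventually.of_forall fun ω h2 => absurd h h2
    · have h1 : dens μ ℱ A n =ᵐ[μ] 0 := by
        unfold dens
        rw [hcop _ h, Set.indicator_empty]
        rw [show (fun _ : Ω => (0 : ℝ)) = 0 from rfl, condExp_zero]
      filter_upwards [h1] with ω hω _
      exact hω
  filter_upwards [hz', hd] with ω hω1 hω2 ε hε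
  have h1 : Tendsto (fun n : ℕ => dens μ ℱ A n ω * Real.log ((n + 1 : ℕ) : ℝ) / W P (z (n + 1)))
      (atTop ⊓ 𝓟 {n : ℕ | Rough P z (n + 1)}) (𝓝 1) := by
    have h2 := hω2.mul (log_succ_ratio.mono_left (inf_le_left : atTop ⊓ 𝓟 {n : ℕ | Rough P z (n + 1)} ≤ atTop))
    rw [mul_one] at h2
    refine h2.congr' ?_
    apply Filter.Eventually.filter_mono inf_le_left
    filter_upwards [eventually_gt_atTop 1] with n hn
    have hn' : (1 : ℝ) < n := by exact_mod_cast hn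
    have hl : 0 < Real.log (n : ℝ) := Real.log_pos hn'
    field_simp
  have h2 := (Metric.tendsto_nhds.1 h1) ε hε
  rw [eventually_inf_principal] at h2
  have h3 : ∀ᶠ n : ℕ in atTop, W P (z (n + 1)) / Real.log ((n + 1 : ℕ) : ℝ) < 1 :=
    (tendsto_add_atTop_nat 1).eventually hV
  filter_upwards [h2, h3, eventually_gt_atTop 2] with n hn hn2 hn3
  by_cases hcp : Rough P z (n + 1)
  · have h4 := hn hcp
    have hl : 0 < Real.log ((n + 1 : ℕ) : ℝ) := Real.log_pos (by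
      push_cast
      have : (2 : ℝ) < n := by exact_mod_cast hn3
      linarith)
    have hV : 0 < W P (z (n + 1)) := lt_of_lt_of_le one_pos (W_ge _ _)
    have e1 : rho P z (n + 1) = W P (z (n + 1)) / Real.log ((n + 1 : ℕ) : ℝ) := by
      unfold rho
      rw [if_pos hcp, min_eq_right hn2.le]
    rw [e1]
    rw [Real.dist_eq] at h4
    have e2 : dens μ ℱ A n ω - W P (z (n + 1)) / Real.log ((n + 1 : ℕ) : ℝ) =
        (dens μ ℱ A n ω * Real.log ((n + 1 : ℕ) : ℝ) / W P (z (n + 1)) - 1) *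
          (W P (z (n + 1)) / Real.log ((n + 1 : ℕ) : ℝ)) := by
      field_simp
    have h5 : 0 < W P (z (n + 1)) / Real.log ((n + 1 : ℕ) : ℝ) := by positivity
    rw [e2, abs_mul, abs_of_pos h5]
    exact mul_le_mul_of_nonneg_right h4.le h5.le
  · rw [hω1 n hcp]
    have e1 : rho P z (n + 1) = 0 := by
      unfold rho
      rw [if_neg hcp]
    rw [e1]
    simp

theorem law (hA : ∀ n, MeasurableSet[ℱ n] (A n)) (P : Set ℕ) (z : ℕ → ℕ)
    (hprof : ∀ᵐ ω ∂μ, ∀ ε : ℝ, 0 < ε → ∀ᶠ n : ℕ in atTop,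
      |dens μ ℱ A n ω - rho P z (n + 1)| ≤ ε * rho P z (n + 1)) :
    ∀ᵐ ω ∂μ, ∀ η : ℝ, 0 < η → ∃ K : ℝ, ∀ᶠ n : ℕ in atTop,
      |∑ v ∈ quad3 n, In A (val3 v) ω - ∑ v ∈ quad3 n, rho P z (val3 v)| ≤
        η * ∑ v ∈ quad3 n, rho P z (val3 v) + K * Real.log n ^ 3 := by
  classical
  have h := weighted_law (μ := μ) (ℱ := ℱ) (A := A) hA (fun n => (rho_bounds P z n).1) hprof
    (fun n => (quad3 n).filter (fun v => ¬ val3 v < n)) val3 (fun _ => 12) 1
    (by
      filter_upwards [eventually_ge_atTop 12] with x hx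
      rw [pow_one]
      exact hx)
    (Eventually.of_forall fun n Q =>
      (Finset.card_le_card (Finset.filter_subset_filter _ (Finset.filter_subset _ _))).trans (fibre3 n Q))
    id tendsto_id
    (Eventually.of_forall fun n v hv => not_lt.1 (Finset.mem_filter.1 hv).2)
  filter_upwards [h] with ω hω η hη
  obtain ⟨K, hK0, hK⟩ := hω η hη
  refine ⟨12 * K + 54, ?_⟩
  filter_upwards [hK, log_cube, logN.eventually_ge_atTop 1] with n h1 h2 h3
  obtain ⟨l1, l2⟩ := h2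
  have hsplit : ∀ f : ℕ × ℕ × ℕ × ℕ → ℝ, ∑ v ∈ quad3 n, f v =
      ∑ v ∈ (quad3 n).filter (fun v => val3 v < n), f v + ∑ v ∈ (quad3 n).filter (fun v => ¬ val3 v < n), f v :=
    fun f => (Finset.sum_filter_add_sum_filter_not _ _ _).symm
  rw [hsplit, hsplit (fun v => rho P z (val3 v))]
  have hcard : (((quad3 n).filter (fun v => val3 v < n)).card : ℝ) ≤ 27 * Real.log n ^ 3 :=
    le_trans (by exact_mod_cast small3 n) l1
  have s1 : 0 ≤ ∑ v ∈ (quad3 n).filter (fun v => val3 v < n), In A (val3 v) ω :=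
    Finset.sum_nonneg fun v _ => In_nonneg _ _
  have s2 : ∑ v ∈ (quad3 n).filter (fun v => val3 v < n), In A (val3 v) ω ≤ 27 * Real.log n ^ 3 := by
    refine le_trans ?_ hcard
    refine (Finset.sum_le_card_nsmul _ _ 1 fun v _ => In_le _ _).trans ?_
    simp
  have s3 : 0 ≤ ∑ v ∈ (quad3 n).filter (fun v => val3 v < n), rho P z (val3 v) :=
    Finset.sum_nonneg fun v _ => (rho_bounds P z _).1
  have s4 : ∑ v ∈ (quad3 n).filter (fun v => val3 v < n), rho P z (val3 v) ≤ 27 * Real.log n ^ 3 := by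
    refine le_trans ?_ hcard
    refine (Finset.sum_le_card_nsmul _ _ 1 fun v _ => (rho_bounds P z _).2).trans ?_
    simp
  have s5 : K * ((12 : ℕ) * Real.log n) ≤ 12 * K * Real.log n ^ 3 := by
    push_cast
    nlinarith
  obtain ⟨t1, t2⟩ := abs_le.1 h1
  have s6 : 0 ≤ η * ∑ v ∈ (quad3 n).filter (fun v => val3 v < n), rho P z (val3 v) := mul_nonneg hη.le s3
  rw [abs_le]
  constructor <;> nlinarith

end

/-- for every odd prime `q ∈ P`, `q ≤ x`, with `t` the order of `2` modulo `q`: no prime `l ≥ 5` with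
`l² ∣ t` divides `(3n - 2)(9n - 2)`; and if `3 ∣ t` then `q = 7` or `3 ∣ n` or `n ≡ 13 mod 32` -/
def Reg (P : Set ℕ) (x : ℝ) (n : ℕ) : Prop :=
  ∀ q : ℕ, q.Prime → q ∈ P → (q : ℝ) ≤ x → q ≠ 2 →
    (∀ l : ℕ, l.Prime → 5 ≤ l → l ^ 2 ∣ orderOf (2 : ZMod q) → ¬ (l : ℤ) ∣ (3 * n - 2) * (9 * n - 2)) ∧
    (3 ∣ orderOf (2 : ZMod q) → q = 7 ∨ 3 ∣ n ∨ n % 32 = 13)

lemma low (ε : ℝ) (hε : 0 < ε) (hε1 : ε ≤ 1) : ∃ c₀ : ℝ, 0 < c₀ ∧ ∀ c : ℝ, 0 < c → c ≤ c₀ → ∀ (P : Set ℕ) (z : ℕ → ℕ),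
    (∀ᶠ n : ℕ in atTop, (z n : ℝ) ≤ c * G (Real.log (Real.log n))) →
    ∀ᶠ n : ℕ in atTop, Odd n → Reg P (c * G (Real.log n)) n →
      2 * (n : ℝ) ^ (1 / 2 - ε) ≤ ∑ v ∈ quad3 n, rho P z (val3 v) := by
  classical
  obtain ⟨c₀, hc₀, n₀, hS⟩ := Pool.Agent.Y440.LC.main2 (ε / 2) (by positivity)
  refine ⟨c₀, hc₀, fun c hc hcc P z hz => ?_⟩
  obtain ⟨m1, hm1⟩ := eventually_atTop.1 hz
  have e2 : ∀ᶠ n : ℕ in atTop, 16 ≤ (n : ℝ) ^ (ε / 2) :=
    ((tendsto_rpow_atTop (by positivity)).comp tendsto_natCast_atTop_atTop).eventually_ge_atTop _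
  have e3 := (isLittleO_log_rpow_rpow_atTop (3 : ℝ) (show (0 : ℝ) < 1 / 4 by norm_num)).bound
    (show (0 : ℝ) < 1 / 54 by norm_num)
  filter_upwards [e2, tendsto_natCast_atTop_atTop.eventually e3, log_cube, eventually_ge_atTop n₀,
    eventually_ge_atTop m1, eventually_ge_atTop 16, loglogN.eventually_ge_atTop (Real.exp (Real.exp 1)),
    logN.eventually G_le_sq, logN.eventually_ge_atTop 1] with n h2 h3 h4 h5 h6 h7 h8 h9 h10 hn hreg
  obtain ⟨S, hS1, hS2⟩ := hS n h5 hn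
  have hn16 : (16 : ℝ) ≤ n := by exact_mod_cast h7
  have hn1 : (1 : ℝ) ≤ n := by linarith
  have hn0 : (0 : ℝ) < n := by linarith
  have hn1' : 1 ≤ n := by omega
  have hsub : S ⊆ quad3 n := by
    rintro ⟨x, y, a, b⟩ hX
    exact mem_quad3.2 (hS2 x y a b hX).1
  have hrough : ∀ v ∈ S.filter (fun v => ¬ val3 v < n), Rough P z (val3 v) := by
    rintro ⟨x, y, a, b⟩ hX q hq hqP hqz hqd
    obtain ⟨hX1, hX2⟩ := Finset.mem_filter.1 hX
    rw [not_lt] at hX2
    obtain ⟨g1, g2⟩ := log_val3 hn1' (hsub hX1)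
    have g3 := hm1 (val3 (x, y, a, b)) (h6.trans hX2)
    have g4 : Real.log n ≤ Real.log (val3 (x, y, a, b) : ℝ) := Real.log_le_log hn0 (by exact_mod_cast hX2)
    have g5 : Real.log (Real.log n) ≤ Real.log (Real.log (val3 (x, y, a, b) : ℝ)) :=
      Real.log_le_log (by linarith) g4
    have g6 : Real.log (Real.log (val3 (x, y, a, b) : ℝ)) ≤ Real.log n := by
      refine (Real.log_le_log (by linarith) g2).trans ?_
      rw [Real.log_mul (by norm_num) (Real.rpow_pos_of_pos hn0 _).ne', Real.log_rpow hn0]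
      have k5 : Real.log 16 ≤ Real.log n := Real.log_le_log (by norm_num) hn16
      have k6 : Real.log 16 = 2 * Real.log 4 := by
        rw [show (16 : ℝ) = 4 ^ 2 by norm_num, Real.log_pow]
        norm_num
      linarith
    have g7 := G_mono (h8.trans g5) g6
    have g8 : (q : ℝ) ≤ z (val3 (x, y, a, b)) := by exact_mod_cast hqz
    have g9 : (q : ℝ) ≤ c * G (Real.log n) := by nlinarith
    have g10 : (q : ℝ) ≤ c₀ * G (Real.log n) := g9.trans (mul_le_mul_of_nonneg_right hcc h9.1)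
    obtain ⟨k1, k2⟩ := (hS2 x y a b hX1).2 q hq hqd g10
    obtain ⟨r1, r2⟩ := hreg q hq hqP g9 k1
    rcases k2 with ⟨l, l1, l2, l3, l4⟩ | ⟨m1, m2, m3, m4⟩
    · exact r1 l l1 l2 l3 l4
    · rcases r2 m4 with h | h | h
      · exact m3 h
      · exact m1 h
      · exact m2 h
  have hnh : 1 ≤ (n : ℝ) ^ (1 / 2 : ℝ) := Real.one_le_rpow hn1 (by norm_num)
  have h6' : ∀ v ∈ S.filter (fun v => ¬ val3 v < n), 1 / (4 * (n : ℝ) ^ (1 / 2 : ℝ)) ≤ rho P z (val3 v) := by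
    intro v hv
    obtain ⟨g1, g2⟩ := log_val3 hn1' (hsub (Finset.mem_filter.1 hv).1)
    unfold rho
    rw [if_pos (hrough v hv)]
    apply le_min
    · rw [div_le_one (by linarith)]
      linarith
    · have := W_ge P (z (val3 v))
      have g3 : 0 < Real.log (val3 v : ℝ) := by linarith
      gcongr
  have hcard : (n : ℝ) ^ (1 - ε / 2) ≤ ((S.filter (fun v => ¬ val3 v < n)).card : ℝ) + 27 * Real.log n ^ 3 := by
    refine hS1.trans ?_
    have k1 : S.card = (S.filter (fun v => val3 v < n)).card + (S.filter (fun v => ¬ val3 v < n)).card :=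
      (Finset.card_filter_add_card_filter_not _).symm
    have k2 : (S.filter (fun v => val3 v < n)).card ≤ (Nat.log 2 n + 1) ^ 3 :=
      (Finset.card_le_card (Finset.filter_subset_filter _ hsub)).trans (small3 n)
    have k3 : ((S.filter (fun v => val3 v < n)).card : ℝ) ≤ 27 * Real.log n ^ 3 :=
      le_trans (by exact_mod_cast k2) h4.1
    rw [k1]
    push_cast
    linarith
  rw [Real.norm_eq_abs, Real.norm_eq_abs, abs_of_nonneg (Real.rpow_nonneg (by linarith) _),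
    abs_of_nonneg (Real.rpow_nonneg hn0.le _)] at h3
  have e5 : Real.log n ^ (3 : ℝ) = Real.log n ^ (3 : ℕ) := by
    rw [← Real.rpow_natCast]; norm_num
  rw [e5] at h3
  have hq14 : (n : ℝ) ^ (1 / 4 : ℝ) ≤ (n : ℝ) ^ (1 - ε / 2) :=
    Real.rpow_le_rpow_of_exponent_le hn1 (by linarith)
  have hcard2 : (n : ℝ) ^ (1 - ε / 2) / 2 ≤ ((S.filter (fun v => ¬ val3 v < n)).card : ℝ) := by linarith
  calc 2 * (n : ℝ) ^ (1 / 2 - ε) = 16 * ((n : ℝ) ^ (1 / 2 - ε) / 8) := by ring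
    _ ≤ (n : ℝ) ^ (ε / 2) * ((n : ℝ) ^ (1 / 2 - ε) / 8) := by gcongr
    _ = ((n : ℝ) ^ (1 - ε / 2) / 2) * (1 / (4 * (n : ℝ) ^ (1 / 2 : ℝ))) := by
        have e1 : (n : ℝ) ^ (1 - ε / 2) = (n : ℝ) ^ (ε / 2) * (n : ℝ) ^ (1 / 2 - ε) * (n : ℝ) ^ (1 / 2 : ℝ) := by
          rw [← Real.rpow_add hn0, ← Real.rpow_add hn0]
          congr 1
          ring
        rw [e1]
        field_simp
        ring
    _ ≤ ((S.filter (fun v => ¬ val3 v < n)).card : ℝ) * (1 / (4 * (n : ℝ) ^ (1 / 2 : ℝ))) := by gcongr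
    _ = ∑ _v ∈ S.filter (fun v => ¬ val3 v < n), 1 / (4 * (n : ℝ) ^ (1 / 2 : ℝ)) := by
        rw [Finset.sum_const, nsmul_eq_mul]
    _ ≤ ∑ v ∈ S.filter (fun v => ¬ val3 v < n), rho P z (val3 v) := Finset.sum_le_sum h6'
    _ ≤ _ := Finset.sum_le_sum_of_subset_of_nonneg ((Finset.filter_subset _ _).trans hsub)
        fun v _ _ => (rho_bounds P z _).1

end Pool.Agent.N860.GS
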